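import Mathlib
import Pool.Agent.W163.P3.Real

/-! helper163 project P3: step 3 (`S_RA3`). -/

set_option autoImplicit false

namespace Pool.Agent.W577.P3.RA3

open Pool.Agent.W163.P3

/-- the core inequality -/
theorem core (y t0 t1 t2 t3 q e1 e2 e3 D f th e A' : ℝ)
    (hy : y = 1 - th) (hth : 0 ≤ th) (hf : 0 ≤ f) (he' : e ≤ 1 / 10 ^ 6)
    (hC : 2 * f + 2 * th + 24 * (t0 ^ 2 + t1 ^ 2 + t2 ^ 2 + t3 ^ 2) ≤ 292 / 100000)
    (hsum : t0 + t1 + t2 + t3 = 0)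
    (he1 : 0 ≤ e1) (he2 : 0 ≤ e2) (he3 : 0 ≤ e3) (hD : e1 + e2 + e3 = D)
    (hD1 : 3 / 100 < D) (hD2 : D ≤ 13 / 100)
    (hq1 : y / 4 + t0 ≤ 3 * q) (hq2 : q ≤ y / 4 + t0)
    (hA : A' ≤ 13 / 32 * y ^ 2 - 2 / 5 - 3 / 2 * q ^ 2 + y / 4 * q + t0 * (q - 3 / 4 * y)
      + 5 / 2 * t0 ^ 2 - (t0 ^ 2 + t1 ^ 2 + t2 ^ 2 + t3 ^ 2))
    (hI : 0 ≤ e + 2 * f + 2 * th + (632 / 100 * D) * A' + 2 * q * D
      - 2 * (e1 * (y / 4 + t1) + e2 * (y / 4 + t2) + e3 * (y / 4 + t3)) + D ^ 2 / 3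
      + 3 * (t0 ^ 2 + t1 ^ 2 + t2 ^ 2 + t3 ^ 2)) : False := by
  set SS : ℝ := t0 ^ 2 + t1 ^ 2 + t2 ^ 2 + t3 ^ 2 with hSS
  have hSS0 : 0 ≤ SS := by rw [hSS]; positivity
  have hth' : th ≤ 146 / 100000 := by linarith
  have ht0 : t0 ^ 2 ≤ 3 / 4 * SS := by
    have h1 : t0 = -(t1 + t2 + t3) := by linarith
    have h2 : t0 ^ 2 ≤ 3 * (t1 ^ 2 + t2 ^ 2 + t3 ^ 2) := by
      rw [h1]
      nlinarith only [sq_nonneg (t1 - t2), sq_nonneg (t1 - t3), sq_nonneg (t2 - t3)]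
    rw [hSS]
    linarith
  have hSSb : SS ≤ 122 / 1000000 := by linarith
  have ht0a : t0 ^ 2 ≤ (96 / 10000) ^ 2 := by
    norm_num
    linarith
  have ht0b := abs_le_of_sq_le_sq' ht0a (by norm_num)
  obtain ⟨ht0l, ht0u⟩ := ht0b
  have hq0 : 79 / 1000 ≤ q := by
    rw [hy] at hq1
    linarith
  have hqu : q ≤ 262 / 1000 := by
    rw [hy] at hq2
    linarith
  have hv1 : 3 / 4 * y - q ≤ 671 / 1000 := by rw [hy]; linarith
  have hv2 : 0 ≤ 3 / 4 * y - q := by rw [hy]; linarith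
  have hv : (3 / 4 * y - q) ^ 2 ≤ (671 / 1000) ^ 2 := pow_le_pow_left₀ hv2 hv1 2
  set l : ℝ := 632 / 100 * D with hl
  have hl0 : 0 ≤ l := by rw [hl]; linarith
  have hl1 : l ≤ 1 := by rw [hl]; linarith
  have hy1 : y ≤ 1 := by rw [hy]; linarith
  have hy0 : 0 ≤ y := by rw [hy]; linarith
  have hyy : y ^ 2 ≤ 1 := by nlinarith only [hy0, hy1]
  have hA2 : A' ≤ (625 / 100000 - 3 / 2 * q ^ 2 + q / 4) + t0 * (q - 3 / 4 * y) + 7 / 8 * SS := by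
    have h1 : y / 4 * q ≤ q / 4 := by nlinarith only [hy1, hq0]
    have h2 : 13 / 32 * y ^ 2 - 2 / 5 ≤ 625 / 100000 := by linarith only [hyy]
    linarith only [hA, h1, h2, ht0]
  have hlA : l * A' ≤ l * (625 / 100000 - 3 / 2 * q ^ 2 + q / 4) + l * (t0 * (q - 3 / 4 * y))
      + 7 / 8 * SS := by
    have h1 := mul_le_mul_of_nonneg_left hA2 hl0
    have h2 : l * (7 / 8 * SS) ≤ 7 / 8 * SS := by nlinarith only [hl1, hSS0]
    linarith only [h1, h2]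
  have hsq : l * (t0 * (q - 3 / 4 * y)) - 2 * (e1 * t1 + e2 * t2 + e3 * t3) ≤
      161 / 8 * SS + 2735 / 10000 * D ^ 2 := by
    -- squares
    have h0 : 0 ≤ (161 / 4 * t0 - l * (q - 3 / 4 * y)) ^ 2 := sq_nonneg _
    have h1 : 0 ≤ (161 / 4 * t1 + 2 * e1) ^ 2 := sq_nonneg _
    have h2 : 0 ≤ (161 / 4 * t2 + 2 * e2) ^ 2 := sq_nonneg _
    have h3 : 0 ≤ (161 / 4 * t3 + 2 * e3) ^ 2 := sq_nonneg _
    have h4 : e1 ^ 2 + e2 ^ 2 + e3 ^ 2 ≤ D ^ 2 := by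
      rw [← hD]
      nlinarith only [mul_nonneg he1 he2, mul_nonneg he1 he3, mul_nonneg he2 he3]
    have h5 : l ^ 2 * (3 / 4 * y - q) ^ 2 ≤ l ^ 2 * (671 / 1000) ^ 2 :=
      mul_le_mul_of_nonneg_left hv (sq_nonneg l)
    have h6 : l ^ 2 * (671 / 1000) ^ 2 + 4 * D ^ 2 ≤ 2199 / 100 * D ^ 2 := by
      rw [hl]
      nlinarith only [sq_nonneg D]
    have h7 : (l * (q - 3 / 4 * y)) ^ 2 = l ^ 2 * (3 / 4 * y - q) ^ 2 := by ring
    have hDD := sq_nonneg D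
    have h8 : l * (t0 * (q - 3 / 4 * y)) - 2 * (e1 * t1 + e2 * t2 + e3 * t3) =
        161 / 8 * SS + 2 / 161 * ((l * (q - 3 / 4 * y)) ^ 2 + 4 * (e1 ^ 2 + e2 ^ 2 + e3 ^ 2))
        - 2 / 161 * ((161 / 4 * t0 - l * (q - 3 / 4 * y)) ^ 2 + (161 / 4 * t1 + 2 * e1) ^ 2
          + (161 / 4 * t2 + 2 * e2) ^ 2 + (161 / 4 * t3 + 2 * e3) ^ 2) := by
      rw [hSS]
      ring
    rw [h8, h7]
    linarith only [h0, h1, h2, h3, h4, h5, h6, hDD]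
  have hlin : -(2 * (e1 * (y / 4 + t1) + e2 * (y / 4 + t2) + e3 * (y / 4 + t3))) =
      -(D / 2) + th * D / 2 - 2 * (e1 * t1 + e2 * t2 + e3 * t3) := by
    rw [← hD, hy]
    ring
  have hthD : th * D / 2 ≤ 73 / 100000 * D := by nlinarith only [hth', hD1]
  have hquad : -(1 / 2) * D + 2 * q * D + l * (625 / 100000 - 3 / 2 * q ^ 2 + q / 4) ≤
      -(1225 / 10000) * D := by
    have h1 : -(1 / 2) + 2 * q + 632 / 100 * (625 / 100000 - 3 / 2 * q ^ 2 + q / 4) ≤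
        -(1225 / 10000) := by
      nlinarith only [sq_nonneg (q - 358 / 1896)]
    have h2 := mul_le_mul_of_nonneg_right h1 (show (0 : ℝ) ≤ D by linarith)
    rw [hl]
    linarith only [h2]
  have hfin : (0 : ℝ) ≤ 1 / 10 ^ 6 + 292 / 100000 - (1225 / 10000) * D + 73 / 100000 * D +
      (2735 / 10000 + 1 / 3) * D ^ 2 := by
    obtain ⟨W1, hW1⟩ : ∃ W, W = e1 * (y / 4 + t1) + e2 * (y / 4 + t2) + e3 * (y / 4 + t3) := ⟨_, rfl⟩
    obtain ⟨W2, hW2⟩ : ∃ W, W = e1 * t1 + e2 * t2 + e3 * t3 := ⟨_, rfl⟩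
    obtain ⟨W3, hW3⟩ : ∃ W, W = l * (t0 * (q - 3 / 4 * y)) := ⟨_, rfl⟩
    obtain ⟨W4, hW4⟩ : ∃ W, W = l * (625 / 100000 - 3 / 2 * q ^ 2 + q / 4) := ⟨_, rfl⟩
    obtain ⟨W5, hW5⟩ : ∃ W, W = l * A' := ⟨_, rfl⟩
    obtain ⟨W6, hW6⟩ : ∃ W, W = 2 * q * D := ⟨_, rfl⟩
    obtain ⟨W7, hW7⟩ : ∃ W, W = th * D / 2 := ⟨_, rfl⟩
    obtain ⟨W8, hW8⟩ : ∃ W, W = D ^ 2 := ⟨_, rfl⟩
    rw [← hW1, ← hW5, ← hW6, ← hW8] at hI
    rw [← hW1, ← hW2, ← hW7] at hlin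
    rw [← hW3, ← hW4, ← hW5] at hlA
    rw [← hW2, ← hW3, ← hW8] at hsq
    rw [← hW7] at hthD
    rw [← hW4, ← hW6] at hquad
    rw [← hW8]
    clear hW1 hW2 hW3 hW4 hW5 hW6 hW7 hW8
    linarith only [hI, hlin, hlA, hsq, hthD, hquad, hC, he', hSS0]
  have hend : (0 : ℝ) < (D - 3 / 100) * (13 / 100 - D) ∨ D = 13 / 100 := by
    rcases hD2.lt_or_eq with h | h
    · left; nlinarith only [h, hD1]
    · right; exact h
  rcases hend with h | h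
  · norm_num at hfin
    nlinarith only [hfin, h, hD1]
  · rw [h] at hfin
    norm_num at hfin

/-- the upper bound for the form -/
theorem form (y1 y2 y3 p1 p2 p3 d12 d13 d21 d23 d31 d32 : ℝ) :
    LIN y1 y2 y3 p1 p2 p3 d12 d13 d21 d23 d31 d32 + QQ d12 d13 d21 d23 d31 d32 ≤
      2 * (p1 * (d21 + d31) + p2 * (d12 + d32) + p3 * (d13 + d23))
      - 2 * ((d21 + d31) * y1 + (d12 + d32) * y2 + (d13 + d23) * y3)
      + (d12 + d13 + d21 + d23 + d31 + d32) ^ 2 / 3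
      + ((y3 - y2) ^ 2 + (y3 - y1) ^ 2 + (y2 - y1) ^ 2) := by
  have key : (2 * (p1 * (d21 + d31) + p2 * (d12 + d32) + p3 * (d13 + d23))
      - 2 * ((d21 + d31) * y1 + (d12 + d32) * y2 + (d13 + d23) * y3)
      + (d12 + d13 + d21 + d23 + d31 + d32) ^ 2 / 3
      + ((y3 - y2) ^ 2 + (y3 - y1) ^ 2 + (y2 - y1) ^ 2)) -
      (LIN y1 y2 y3 p1 p2 p3 d12 d13 d21 d23 d31 d32 + QQ d12 d13 d21 d23 d31 d32) =
      (d21 - d31 + (y3 - y2)) ^ 2 + (d12 - d32 + (y3 - y1)) ^ 2 + (d13 - d23 + (y2 - y1)) ^ 2 +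
      (((d12 + d32 - (d21 + d31)) + 2 * ((d13 - d23) - (d21 - d31)) + ((d12 - d32) + (d21 - d31))) ^ 2
      + ((d13 + d23 - (d21 + d31)) + ((d13 - d23) - (d21 - d31)) + 2 * ((d12 - d32) + (d21 - d31))) ^ 2
      + (((d13 + d23 - (d21 + d31)) + ((d13 - d23) - (d21 - d31)) + 2 * ((d12 - d32) + (d21 - d31)))
        - ((d12 + d32 - (d21 + d31)) + 2 * ((d13 - d23) - (d21 - d31))
          + ((d12 - d32) + (d21 - d31)))) ^ 2) / 6 := by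
    unfold LIN QQ
    ring
  have h0 : 0 ≤ (d21 - d31 + (y3 - y2)) ^ 2 + (d12 - d32 + (y3 - y1)) ^ 2 + (d13 - d23 + (y2 - y1)) ^ 2 +
      (((d12 + d32 - (d21 + d31)) + 2 * ((d13 - d23) - (d21 - d31)) + ((d12 - d32) + (d21 - d31))) ^ 2
      + ((d13 + d23 - (d21 + d31)) + ((d13 - d23) - (d21 - d31)) + 2 * ((d12 - d32) + (d21 - d31))) ^ 2
      + (((d13 + d23 - (d21 + d31)) + ((d13 - d23) - (d21 - d31)) + 2 * ((d12 - d32) + (d21 - d31)))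
        - ((d12 + d32 - (d21 + d31)) + 2 * ((d13 - d23) - (d21 - d31))
          + ((d12 - d32) + (d21 - d31)))) ^ 2) / 6 := by positivity
  linarith

/-- with the maximum `q` -/
theorem aux (y0 y1 y2 y3 p1 p2 p3 d12 d13 d21 d23 d31 d32 f th e : ℝ)
    (H : RHyp y0 y1 y2 y3 p1 p2 p3 d12 d13 d21 d23 d31 d32 f th e) (q : ℝ)
    (hq1 : p1 ≤ q) (hq2 : p2 ≤ q) (hq3 : p3 ≤ q)
    (hw : q ^ 2 + (y0 - q) ^ 2 / 2 ≤ p1 ^ 2 + p2 ^ 2 + p3 ^ 2) (hqy : q ≤ y0)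
    (hD2 : d12 + d13 + d21 + d23 + d31 + d32 ≤ 13 / 100) :
    d12 + d13 + d21 + d23 + d31 + d32 ≤ 3 / 100 := by
  by_contra hcon
  push Not at hcon
  obtain ⟨hy0, hy1, hy2, hy3, hp1, hp2, hp3, h12, h13, h21, h23, h31, h32, hf, hth, he, he', hsum,
    hp, hd1, hd2, hd3, hC, hm1, hm2, hm3, hS, hIa, hIb⟩ := H
  set D : ℝ := d12 + d13 + d21 + d23 + d31 + d32 with hD
  have hform := form y1 y2 y3 p1 p2 p3 d12 d13 d21 d23 d31 d32
  rw [← hD] at hform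
  set L := LIN y1 y2 y3 p1 p2 p3 d12 d13 d21 d23 d31 d32 with hL
  set Q := QQ d12 d13 d21 d23 d31 d32 with hQ
  have hpe : p1 * (d21 + d31) + p2 * (d12 + d32) + p3 * (d13 + d23) ≤ q * D := by
    have a1 : p1 * (d21 + d31) ≤ q * (d21 + d31) := mul_le_mul_of_nonneg_right hq1 (by linarith)
    have a2 : p2 * (d12 + d32) ≤ q * (d12 + d32) := mul_le_mul_of_nonneg_right hq2 (by linarith)
    have a3 : p3 * (d13 + d23) ≤ q * (d13 + d23) := mul_le_mul_of_nonneg_right hq3 (by linarith)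
    have : q * D = q * (d21 + d31) + q * (d12 + d32) + q * (d13 + d23) := by rw [hD]; ring
    linarith
  set y : ℝ := 1 - th with hy
  obtain ⟨t0, ht0⟩ : ∃ t, t = y0 - y / 4 := ⟨_, rfl⟩
  obtain ⟨t1, ht1⟩ : ∃ t, t = y1 - y / 4 := ⟨_, rfl⟩
  obtain ⟨t2, ht2⟩ : ∃ t, t = y2 - y / 4 := ⟨_, rfl⟩
  obtain ⟨t3, ht3⟩ : ∃ t, t = y3 - y / 4 := ⟨_, rfl⟩
  have e0 : y0 = y / 4 + t0 := by linarith
  have e1 : y1 = y / 4 + t1 := by linarith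
  have e2 : y2 = y / 4 + t2 := by linarith
  have e3 : y3 = y / 4 + t3 := by linarith
  have hts : t0 + t1 + t2 + t3 = 0 := by linarith
  have hSSid : 4 * (y0 ^ 2 + y1 ^ 2 + y2 ^ 2 + y3 ^ 2) - y ^ 2 =
      4 * (t0 ^ 2 + t1 ^ 2 + t2 ^ 2 + t3 ^ 2) := by
    have : t3 = -(t0 + t1 + t2) := by linarith
    rw [e0, e1, e2, e3, this]
    ring
  have hg : (y3 - y2) ^ 2 + (y3 - y1) ^ 2 + (y2 - y1) ^ 2 ≤
      3 * (t0 ^ 2 + t1 ^ 2 + t2 ^ 2 + t3 ^ 2) := by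
    have : t3 = -(t0 + t1 + t2) := by linarith
    rw [e1, e2, e3, this]
    nlinarith only [sq_nonneg t0]
  refine core y t0 t1 t2 t3 q (d21 + d31) (d12 + d32) (d13 + d23) D f th e
    (y0 ^ 2 + 2 * (y1 * y2 + y1 * y3 + y2 * y3) - 2 / 5 - (p1 ^ 2 + p2 ^ 2 + p3 ^ 2))
    rfl hth hf he' ?_ hts (by linarith) (by linarith) (by linarith) (by rw [hD]; ring) hcon hD2
    (by linarith) (by linarith) ?_ ?_
  · rw [hSSid] at hC
    linarith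
  · have hAid : y0 ^ 2 + 2 * (y1 * y2 + y1 * y3 + y2 * y3) - 2 / 5 - (q ^ 2 + (y0 - q) ^ 2 / 2) =
        13 / 32 * y ^ 2 - 2 / 5 - 3 / 2 * q ^ 2 + y / 4 * q + t0 * (q - 3 / 4 * y)
        + 5 / 2 * t0 ^ 2 - (t0 ^ 2 + t1 ^ 2 + t2 ^ 2 + t3 ^ 2) := by
      have : t3 = -(t0 + t1 + t2) := by linarith
      rw [e0, e1, e2, e3, this]
      ring
    linarith
  · set A' := y0 ^ 2 + 2 * (y1 * y2 + y1 * y3 + y2 * y3) - 2 / 5 - (p1 ^ 2 + p2 ^ 2 + p3 ^ 2)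
      with hA'
    set l : ℝ := 632 / 100 * D with hl
    have hl0 : 0 ≤ l := by rw [hl]; linarith
    have hl1 : l ≤ 1 := by rw [hl]; linarith
    have b1 := mul_nonneg hl0 hIa
    have b2 := mul_nonneg (sub_nonneg.mpr hl1) hIb
    have b3 : 0 ≤ e + 2 * f + 2 * th + l * A' + L + Q := by linarith only [b1, b2]
    have b4 : (d21 + d31) * y1 + (d12 + d32) * y2 + (d13 + d23) * y3 =
        (d21 + d31) * (y / 4 + t1) + (d12 + d32) * (y / 4 + t2) + (d13 + d23) * (y / 4 + t3) := by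
      rw [e1, e2, e3]
    rw [b4] at hform
    linarith only [b3, hform, hpe, hg]

theorem t_RA3 : S_RA3 := by
  intro y0 y1 y2 y3 p1 p2 p3 d12 d13 d21 d23 d31 d32 f th e H hD
  have hp := H.hp
  have hp1 := H.hp1
  have hp2 := H.hp2
  have hp3 := H.hp3
  rcases le_total p1 p2 with h12 | h12
  · rcases le_total p2 p3 with h23 | h23
    · -- p3 is the largest
      refine aux _ _ _ _ _ _ _ _ _ _ _ _ _ _ _ _ H p3 (h12.trans h23) h23 le_rfl ?_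
        (by linarith) hD
      have : y0 - p3 = p1 + p2 := by linarith
      rw [this]
      nlinarith [sq_nonneg (p1 - p2)]
    · refine aux _ _ _ _ _ _ _ _ _ _ _ _ _ _ _ _ H p2 h12 le_rfl h23 ?_
        (by linarith) hD
      have : y0 - p2 = p1 + p3 := by linarith
      rw [this]
      nlinarith [sq_nonneg (p1 - p3)]
  · rcases le_total p1 p3 with h13 | h13
    · refine aux _ _ _ _ _ _ _ _ _ _ _ _ _ _ _ _ H p3 h13 (h12.trans h13) le_rfl ?_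
        (by linarith) hD
      have : y0 - p3 = p1 + p2 := by linarith
      rw [this]
      nlinarith [sq_nonneg (p1 - p2)]
    · refine aux _ _ _ _ _ _ _ _ _ _ _ _ _ _ _ _ H p1 le_rfl h12 h13 ?_
        (by linarith) hD
      have : y0 - p1 = p2 + p3 := by linarith
      rw [this]
      nlinarith [sq_nonneg (p2 - p3)]

end Pool.Agent.W577.P3.RA3
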