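import Pool.Agent.W163.P3.Stm

set_option autoImplicit false
set_option linter.unusedSectionVars false
set_option synthInstance.maxHeartbeats 400000
open Finset

namespace Pool.Agent.W577.P3

open Pool.Agent.W163.P3

theorem Pr_lt {d e : ℕ} (h : Pr d e) : d < 3 ∧ e < 3 := by
  unfold Pr at h; omega

theorem pc_le (a b c : ℕ) : pc a b c ≤ 1 := by unfold pc; split_ifs <;> omega

/-- swapping the first two vertices -/
theorem pc_swap {a a' b c : ℕ} (h : Pr a a') (hb : b < 3) (hc : c < 3) :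
    pc a b c = pc a' c b := by
  unfold Pr at h
  rcases h with ⟨rfl, rfl⟩ | ⟨rfl, rfl⟩ | ⟨rfl, rfl⟩ <;> interval_cases b <;>
    interval_cases c <;> rfl

/-- swapping the last two vertices -/
theorem pc_swap' {a b c c' : ℕ} (h : Pr c c') (ha : a < 3) (hb : b < 3) :
    pc a b c = pc b a c' := by
  unfold Pr at h
  rcases h with ⟨rfl, rfl⟩ | ⟨rfl, rfl⟩ | ⟨rfl, rfl⟩ <;> interval_cases a <;>
    interval_cases b <;> rfl

theorem sd_tab' : ∀ k l : Fin 4, ∀ d e : Fin 3, k ≠ l →
    (((d : ℕ) = 0 ∧ (e : ℕ) = 0) ∨ ((d : ℕ) = 1 ∧ (e : ℕ) = 2) ∨ ((d : ℕ) = 2 ∧ (e : ℕ) = 1)) →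
    ((d : ℕ) = sd k l ↔ (e : ℕ) = sd l k) := by
  unfold sd; decide +kernel

theorem sd_tab {k l d e : ℕ} (hk : k < 4) (hl : l < 4) (h : k ≠ l) (hp : Pr d e) :
    (d = sd k l ↔ e = sd l k) :=
  sd_tab' ⟨k, hk⟩ ⟨l, hl⟩ ⟨d, (Pr_lt hp).1⟩ ⟨e, (Pr_lt hp).2⟩ (by simpa using h) hp

theorem pt1' : ∀ k l m : Fin 4, ∀ a b c : Fin 3, k ≠ l → k ≠ m → l ≠ m →
    (pc a b c : ℤ) ≤ 1 - (if (a : ℕ) ≠ sd k l then 1 else 0) -
      (if (b : ℕ) ≠ sd k m then 1 else 0) - (if (c : ℕ) ≠ sd l m then 1 else 0) +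
      2 * ((if (a : ℕ) ≠ sd k l then 1 else 0) * (if (b : ℕ) ≠ sd k m then 1 else 0) +
        (if (a : ℕ) ≠ sd k l then 1 else 0) * (if (c : ℕ) ≠ sd l m then 1 else 0) +
        (if (b : ℕ) ≠ sd k m then 1 else 0) * (if (c : ℕ) ≠ sd l m then 1 else 0)) := by
  unfold sd pc; decide +kernel

theorem pt1 {k l m a b c : ℕ} (hk : k < 4) (hl : l < 4) (hm : m < 4) (h1 : k ≠ l) (h2 : k ≠ m)
    (h3 : l ≠ m) (ha : a < 3) (hb : b < 3) (hc : c < 3) :
    (pc a b c : ℤ) ≤ 1 - (if a ≠ sd k l then 1 else 0) - (if b ≠ sd k m then 1 else 0) -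
      (if c ≠ sd l m then 1 else 0) +
      2 * ((if a ≠ sd k l then 1 else 0) * (if b ≠ sd k m then 1 else 0) +
        (if a ≠ sd k l then 1 else 0) * (if c ≠ sd l m then 1 else 0) +
        (if b ≠ sd k m then 1 else 0) * (if c ≠ sd l m then 1 else 0)) :=
  pt1' ⟨k, hk⟩ ⟨l, hl⟩ ⟨m, hm⟩ ⟨a, ha⟩ ⟨b, hb⟩ ⟨c, hc⟩ (by simpa using h1) (by simpa using h2)
    (by simpa using h3)

theorem pt2' : ∀ s a b c : Fin 3,
    (pc a b c : ℤ) ≤ (if b ≠ s then 1 else 0) * (1 - (if c ≠ s then 1 else 0)) * pc a b c +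
      (if c ≠ s then 1 else 0) * (1 - (if b ≠ s then 1 else 0)) * pc a b c +
      (if b ≠ s then 1 else 0) * (if c ≠ s then 1 else 0) := by
  unfold pc; decide +kernel

def aa (b c : ℕ) : ℕ := if b = 2 ∧ c = 0 then 1 else if b = 1 ∧ c = 0 then 2 else
  if b = 0 ∧ c = 1 then 1 else if b = 0 ∧ c = 2 then 2 else 0

theorem pt3' : ∀ a b c : Fin 3, (pc a b c : ℤ) ≤ if (a : ℕ) = aa b c then 1 else 0 := by
  unfold pc aa; decide +kernel

theorem pt3 {a b c : ℕ} (ha : a < 3) (hb : b < 3) (hc : c < 3) :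
    (pc a b c : ℤ) ≤ if a = aa b c then 1 else 0 := pt3' ⟨a, ha⟩ ⟨b, hb⟩ ⟨c, hc⟩

theorem aa_lt (b c : ℕ) : aa b c < 3 := by unfold aa; split_ifs <;> omega

theorem sd_lt (k l : ℕ) : sd k l < 3 := by unfold sd; split_ifs <;> omega

section

variable {V : Type} [Fintype V] [DecidableEq V]

/-- triple sums -/
def S3 (g : V → V → V → ℤ) : ℤ := ∑ x, ∑ y, ∑ z, g x y z

theorem S3_swap (g : V → V → V → ℤ) : S3 g = S3 (fun x y z => g y x z) := by
  unfold S3; exact sum_comm

theorem S3_swap' (g : V → V → V → ℤ) : S3 g = S3 (fun x y z => g x z y) := by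
  unfold S3; exact sum_congr rfl fun x _ => sum_comm

theorem S3_add (g h : V → V → V → ℤ) : S3 (fun x y z => g x y z + h x y z) = S3 g + S3 h := by
  unfold S3; simp only [sum_add_distrib]

theorem S3_le {g h : V → V → V → ℤ} (H : ∀ x y z, g x y z ≤ h x y z) : S3 g ≤ S3 h := by
  unfold S3
  exact sum_le_sum fun x _ => sum_le_sum fun y _ => sum_le_sum fun z _ => H x y z

theorem S3_congr {g h : V → V → V → ℤ} (H : ∀ x y z, g x y z = h x y z) : S3 g = S3 h := by
  have : g = h := by funext x y z; exact H x y z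
  rw [this]

theorem S3_smul (c : ℤ) (g : V → V → V → ℤ) : S3 (fun x y z => c * g x y z) = c * S3 g := by
  unfold S3; simp only [mul_sum]

end

section main

variable {V : Type} [Fintype V] [DecidableEq V] {r : V → V → ℕ} {q : V → ℕ}

theorem fk_eq (hq : ∀ v, q v < 4) {x y : V} (h : q x ≠ q y) :
    (fk r q x y : ℤ) = if r x y ≠ sd (q x) (q y) then 1 else 0 := by
  unfold fk
  by_cases h' : r x y ≠ sd (q x) (q y)
  · rw [if_pos ⟨hq x, hq y, h, h'⟩, if_pos h']; rfl
  · rw [if_neg (fun H => h' H.2.2.2), if_neg h']; rfl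

theorem fk_zero {x y : V} (h : q x = q y) : (fk r q x y : ℤ) = 0 := by
  unfold fk
  rw [if_neg (fun H => H.2.2.1 h)]; rfl

theorem fk_symm (hr : Ori r) (x y : V) : fk r q x y = fk r q y x := by
  unfold fk
  by_cases h : q x < 4 ∧ q y < 4 ∧ q x ≠ q y
  · have hp := hr x y
    have := sd_tab h.1 h.2.1 h.2.2 hp
    by_cases h2 : r x y = sd (q x) (q y)
    · rw [if_neg (fun H => H.2.2.2 h2), if_neg (fun H => H.2.2.2 (this.1 h2))]
    · rw [if_pos ⟨h.1, h.2.1, h.2.2, h2⟩,
        if_pos ⟨h.2.1, h.1, h.2.2.symm, fun H => h2 (this.2 H)⟩]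
  · rw [if_neg (fun H => h ⟨H.1, H.2.1, H.2.2.1⟩),
      if_neg (fun H => h ⟨H.2.1, H.1, H.2.2.1.symm⟩)]

theorem other' : ∀ k l : Fin 4, k ≠ l → ∃ k' l' : Fin 4,
    k' ≠ l' ∧ k' ≠ k ∧ k' ≠ l ∧ l' ≠ k ∧ l' ≠ l := by decide

theorem sum_q (hq : ∀ v, q v < 4) (h : ℕ → ℤ) :
    ∑ x, h (q x) = ∑ k ∈ range 4, ((pt q k).card : ℤ) * h k := by
  rw [← sum_fiberwise_of_maps_to (s := univ) (t := range 4) (g := q)
    (fun x _ => mem_range.2 (hq x))]
  refine sum_congr rfl fun k _ => ?_
  rw [sum_congr rfl (g := fun _ => h k) (fun x hx => by rw [(mem_filter.1 hx).2]), sum_const,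
    nsmul_eq_mul]
  rfl

theorem sum_q3 (hq : ∀ v, q v < 4) (g : ℕ → ℕ → ℕ → ℤ) :
    S3 (fun x y z => g (q x) (q y) (q z)) = ∑ k ∈ range 4, ∑ l ∈ range 4, ∑ m ∈ range 4,
      ((pt q k).card : ℤ) * (pt q l).card * (pt q m).card * g k l m := by
  unfold S3
  have e1 : ∀ x y : V, ∑ z, g (q x) (q y) (q z) =
      ∑ m ∈ range 4, ((pt q m).card : ℤ) * g (q x) (q y) m :=
    fun x y => sum_q hq (fun m => g (q x) (q y) m)
  simp only [e1]
  have e2 : ∀ x : V, ∑ y, ∑ m ∈ range 4, ((pt q m).card : ℤ) * g (q x) (q y) m =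
      ∑ l ∈ range 4, ((pt q l).card : ℤ) * ∑ m ∈ range 4, ((pt q m).card : ℤ) * g (q x) l m :=
    fun x => sum_q hq (fun l => ∑ m ∈ range 4, ((pt q m).card : ℤ) * g (q x) l m)
  simp only [e2]
  rw [sum_q hq (fun k => ∑ l ∈ range 4, ((pt q l).card : ℤ) *
    ∑ m ∈ range 4, ((pt q m).card : ℤ) * g k l m)]
  refine sum_congr rfl fun k _ => ?_
  rw [mul_sum]
  refine sum_congr rfl fun l _ => ?_
  rw [mul_sum, mul_sum]
  refine sum_congr rfl fun m _ => ?_
  ring

/-- the triples in one part -/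
theorem sum_T (hq : ∀ v, q v < 4) :
    S3 (fun x y z => if q x = q y ∧ q x = q z then (pc (r x y) (r x z) (r y z) : ℤ) else 0) =
      ∑ k ∈ range 4, (TS r (pt q k) : ℤ) := by
  have e : ∀ k : ℕ, (TS r (pt q k) : ℤ) = ∑ x, if q x = k then
      ∑ y, ∑ z, (if q x = q y ∧ q x = q z then (pc (r x y) (r x z) (r y z) : ℤ) else 0) else 0 := by
    intro k
    unfold TS pt
    push_cast
    rw [sum_filter]
    refine sum_congr rfl fun x _ => ?_
    split_ifs with hx
    · rw [sum_filter]
      refine sum_congr rfl fun y _ => ?_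
      by_cases hy : q y = k
      · rw [if_pos hy, sum_filter]
        refine sum_congr rfl fun z _ => ?_
        by_cases hz : q z = k
        · rw [if_pos hz, if_pos ⟨by omega, by omega⟩]
        · rw [if_neg hz, if_neg (by omega)]
      · rw [if_neg hy]
        symm
        refine sum_eq_zero fun z _ => ?_
        rw [if_neg (by omega)]
    · rfl
  simp only [e]
  rw [sum_comm]
  unfold S3
  refine sum_congr rfl fun x _ => ?_
  rw [sum_ite_eq, if_pos (mem_range.2 (hq x))]

theorem t_T : S_T := by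
  intro V _ _ r hr q hq A h1 h2
  obtain ⟨F, hF⟩ : ∃ F : V → V → ℤ, F = fun x y => (fk r q x y : ℤ) := ⟨_, rfl⟩
  obtain ⟨P, hP⟩ : ∃ P : V → V → V → ℤ, P = fun x y z => (pc (r x y) (r x z) (r y z) : ℤ) :=
    ⟨_, rfl⟩
  obtain ⟨D, hD⟩ : ∃ D : V → V → V → ℤ, D = fun x y z =>
    if q x ≠ q y ∧ q x ≠ q z ∧ q y ≠ q z then 1 else 0 := ⟨_, rfl⟩
  obtain ⟨E, hE⟩ : ∃ E : V → V → V → ℤ, E = fun x y z =>
    if q x = q y ∧ q x ≠ q z then 1 else 0 := ⟨_, rfl⟩
  obtain ⟨f, hf⟩ : ∃ f : V → ℤ, f = fun x => ∑ w, F x w := ⟨_, rfl⟩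
  have r3 : ∀ x y, r x y < 3 := fun x y => (Pr_lt (hr x y)).1
  have Fs : ∀ x y, F x y = F y x := fun x y => by rw [hF]; simp only [fk_symm hr x y]
  have F01 : ∀ x y, F x y = 0 ∨ F x y = 1 := by
    intro x y; rw [hF]; simp only [fk]; split_ifs <;> simp
  have F0 : ∀ x y, 0 ≤ F x y := fun x y => by rcases F01 x y with h | h <;> omega
  have Fne : ∀ x y, F x y = 1 → q x ≠ q y := by
    intro x y h he
    rw [hF] at h
    simp only [fk_zero he] at h
    omega
  have Feq : ∀ x y, q x ≠ q y → F x y = if r x y ≠ sd (q x) (q y) then 1 else 0 := by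
    intro x y h; rw [hF]; exact fk_eq hq h
  have P01 : ∀ x y z, 0 ≤ P x y z ∧ P x y z ≤ 1 := by
    intro x y z
    rw [hP]
    have := pc_le (r x y) (r x z) (r y z)
    constructor
    · positivity
    · show (pc (r x y) (r x z) (r y z) : ℤ) ≤ 1
      exact_mod_cast this
  have Ps : ∀ x y z, P x y z = P y x z := by
    intro x y z; rw [hP]; simp only [pc_swap (hr x y) (r3 x z) (r3 y z)]
  have Ps' : ∀ x y z, P x y z = P x z y := by
    intro x y z; rw [hP]; simp only [pc_swap' (hr y z) (r3 x y) (r3 x z)]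
  have D01 : ∀ x y z, D x y z = 0 ∨ D x y z = 1 := by
    intro x y z; rw [hD]; beta_reduce; split_ifs <;> simp
  have E01 : ∀ x y z, E x y z = 0 ∨ E x y z = 1 := by
    intro x y z; rw [hE]; beta_reduce; split_ifs <;> simp
  have Ds : ∀ x y z, D x y z = D y x z := by
    intro x y z; rw [hD]; beta_reduce
    split_ifs with a b b <;> first | rfl | (exfalso; tauto)
  have Ds' : ∀ x y z, D x y z = D x z y := by
    intro x y z; rw [hD]; beta_reduce
    split_ifs with a b b <;> first | rfl | (exfalso; tauto)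
  have Es : ∀ x y z, E x y z = E y x z := by
    intro x y z; rw [hE]; beta_reduce
    split_ifs with a b b <;> first | rfl | (exfalso; omega)
  -- decomposition
  have dec : ∀ x y z, P x y z = D x y z * P x y z + E x y z * P x y z + E x z y * P x y z +
      E y z x * P x y z + (if q x = q y ∧ q x = q z then P x y z else 0) := by
    intro x y z
    rw [hD, hE]; beta_reduce
    by_cases a : q x = q y <;> by_cases b : q x = q z <;> by_cases c : q y = q z <;>
      simp [a, b, c] <;> (try omega)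
  have hdec : S3 P = S3 (fun x y z => D x y z * P x y z) + 3 * S3 (fun x y z => E x y z * P x y z) +
      S3 (fun x y z => if q x = q y ∧ q x = q z then P x y z else 0) := by
    have e1 : S3 (fun x y z => E x y z * P x y z) = S3 (fun x y z => E x z y * P x y z) := by
      rw [S3_swap' (fun x y z => E x y z * P x y z)]
      exact S3_congr fun x y z => by rw [Ps' x y z]
    have e2 : S3 (fun x y z => E x y z * P x y z) = S3 (fun x y z => E y z x * P x y z) := by
      rw [S3_swap' (fun x y z => E x y z * P x y z), S3_swap]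
      exact S3_congr fun x y z => by rw [Ps x y z, Ps' y x z]
    have e3 : S3 P = S3 (fun x y z => D x y z * P x y z + E x y z * P x y z +
      E x z y * P x y z + E y z x * P x y z +
      (if q x = q y ∧ q x = q z then P x y z else 0)) := S3_congr dec
    rw [S3_add, S3_add, S3_add, S3_add, ← e1, ← e2] at e3
    linarith
  -- generic rotations
  have rot : ∀ h : V → V → V → ℤ, S3 h = S3 (fun x y z => h y z x) := by
    intro h
    rw [S3_swap' h, S3_swap]
  -- distinct parts
  have hD1 : S3 (fun x y z => D x y z * P x y z) ≤ S3 (fun x y z => D x y z - D x y z * F x y -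
      D x y z * F x z - D x y z * F y z + 2 * (D x y z * F x y * F x z + D x y z * F x y * F y z +
      D x y z * F x z * F y z)) := by
    refine S3_le fun x y z => ?_
    rcases D01 x y z with h0 | h0
    · rw [h0]; simp
    · have hdis : q x ≠ q y ∧ q x ≠ q z ∧ q y ≠ q z := by
        by_contra hc
        rw [hD] at h0
        simp only [if_neg hc] at h0
        omega
      have := pt1 (hq x) (hq y) (hq z) hdis.1 hdis.2.1 hdis.2.2 (r3 x y) (r3 x z) (r3 y z)
      rw [← Feq x y hdis.1, ← Feq x z hdis.2.1, ← Feq y z hdis.2.2] at this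
      have hPv : P x y z = (pc (r x y) (r x z) (r y z) : ℤ) := by rw [hP]
      rw [h0, hPv]
      linarith
  obtain ⟨N, hN⟩ : ∃ N : ℤ, N = S3 D := ⟨_, rfl⟩
  obtain ⟨a1, ha1⟩ : ∃ a : ℤ, a = S3 (fun x y z => D x y z * F x y) := ⟨_, rfl⟩
  obtain ⟨b3, hb3⟩ : ∃ b : ℤ, b = S3 (fun x y z => D x y z * F x z * F y z) := ⟨_, rfl⟩
  have hD2 : S3 (fun x y z => D x y z * P x y z) ≤ N - 3 * a1 + 6 * b3 := by
    have x1 : S3 (fun x y z => D x y z * F x z) = a1 := by
      rw [ha1, S3_swap' (fun x y z => D x y z * F x y)]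
      exact S3_congr fun x y z => by rw [Ds' x y z]
    have x2 : S3 (fun x y z => D x y z * F y z) = a1 := by
      rw [ha1, rot (fun x y z => D x y z * F x y)]
      exact S3_congr fun x y z => by rw [Ds x y z, Ds' y x z]
    have x3 : S3 (fun x y z => D x y z * F x y * F x z) = b3 := by
      rw [hb3, rot (fun x y z => D x y z * F x z * F y z)]
      exact S3_congr fun x y z => by rw [Ds x y z, Ds' y x z, Fs y x, Fs z x]
    have x4 : S3 (fun x y z => D x y z * F x y * F y z) = b3 := by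
      rw [hb3, S3_swap' (fun x y z => D x y z * F x z * F y z)]
      exact S3_congr fun x y z => by rw [Ds' x y z, Fs z y]
    have x5 : S3 (fun x y z => D x y z - D x y z * F x y -
      D x y z * F x z - D x y z * F y z + 2 * (D x y z * F x y * F x z + D x y z * F x y * F y z +
      D x y z * F x z * F y z)) = N - a1 - S3 (fun x y z => D x y z * F x z) -
        S3 (fun x y z => D x y z * F y z) + 2 * (S3 (fun x y z => D x y z * F x y * F x z) +
        S3 (fun x y z => D x y z * F x y * F y z) + b3) := by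
      rw [hN, ha1, hb3]
      unfold S3
      simp only [sum_add_distrib, sum_sub_distrib, mul_sum, mul_add]
    rw [x5, x1, x2, x3, x4] at hD1
    linarith
  -- two equal parts
  obtain ⟨e3, he3⟩ : ∃ b : ℤ, b = S3 (fun x y z => E x y z * F x z * F y z) := ⟨_, rfl⟩
  obtain ⟨g1, hg1⟩ : ∃ b : ℤ, b = S3 (fun x y z => F x z * (1 - F y z) * (E x y z * P x y z)) :=
    ⟨_, rfl⟩
  have hE1 : S3 (fun x y z => E x y z * P x y z) ≤ 2 * g1 + e3 := by
    have y1 : S3 (fun x y z => F y z * (1 - F x z) * (E x y z * P x y z)) = g1 := by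
      rw [hg1, S3_swap (fun x y z => F x z * (1 - F y z) * (E x y z * P x y z))]
      exact S3_congr fun x y z => by rw [Es x y z, Ps x y z]
    have y2 : S3 (fun x y z => E x y z * P x y z) ≤
        S3 (fun x y z => F x z * (1 - F y z) * (E x y z * P x y z) +
          F y z * (1 - F x z) * (E x y z * P x y z) + E x y z * F x z * F y z) := by
      refine S3_le fun x y z => ?_
      rcases E01 x y z with h0 | h0
      · rw [h0]; simp
      · have hdis : q x = q y ∧ q x ≠ q z := by
          by_contra hc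
          rw [hE] at h0
          simp only [if_neg hc] at h0
          omega
        have := pt2' ⟨sd (q x) (q z), sd_lt _ _⟩ ⟨_, r3 x y⟩ ⟨_, r3 x z⟩ ⟨_, r3 y z⟩
        simp only [ne_eq, Fin.mk.injEq] at this
        have f1 := Feq x z hdis.2
        have f2 := Feq y z (by rw [← hdis.1]; exact hdis.2)
        rw [← hdis.1] at f2
        simp only [ne_eq] at f1 f2
        rw [← f1, ← f2] at this
        have hPv : P x y z = (pc (r x y) (r x z) (r y z) : ℤ) := by rw [hP]
        rw [h0, hPv]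
        linarith
    rw [S3_add, S3_add, y1, ← hg1, ← he3] at y2
    linarith
  -- bound of `g1`
  have hfA : ∀ x : V, ∀ c < 3,
      ((univ.filter (fun w => q w = q x ∧ r x w = c)).card : ℤ) ≤ A - f x := by
    intro x c hc
    have h := h1 x c hc
    have : (((univ.filter (fun w => q w = q x ∧ r x w = c)).card +
      ∑ w, fk r q x w : ℕ) : ℤ) ≤ (A : ℤ) := by exact_mod_cast h
    push_cast at this
    rw [hf, hF]
    beta_reduce
    linarith
  have hg2 : g1 ≤ ∑ x, f x * (A - f x) := by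
    rw [hg1, S3_swap']
    unfold S3
    beta_reduce
    refine sum_le_sum fun x _ => ?_
    have : f x * (A - f x) = ∑ z, F x z * (A - f x) := by rw [hf]; beta_reduce; rw [sum_mul]
    rw [this]
    refine sum_le_sum fun z _ => ?_
    rcases F01 x z with h0 | h0
    · simp [h0]
    · simp only [h0, one_mul]
      refine le_trans ?_ (hfA x (aa (r x z) (sd (q x) (q z))) (aa_lt _ _))
      rw [card_filter, Nat.cast_sum]
      refine sum_le_sum fun y _ => ?_
      have hnn : (0 : ℤ) ≤ ((if q y = q x ∧ r x y = aa (r x z) (sd (q x) (q z)) then 1 else 0 : ℕ) : ℤ) := by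
        positivity
      rcases F01 y z with h2 | h2
      · rcases E01 x y z with h3 | h3
        · rw [h3]; simp only [zero_mul, mul_zero]; exact hnn
        · have hdis : q x = q y ∧ q x ≠ q z := by
            by_contra hc
            rw [hE] at h3
            simp only [if_neg hc] at h3
            omega
          have f2 := Feq y z (by rw [← hdis.1]; exact hdis.2)
          rw [h2] at f2
          have hs : r y z = sd (q x) (q z) := by
            by_contra hc
            rw [← hdis.1, if_pos hc] at f2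
            omega
          have h4 := pt3 (r3 x y) (r3 x z) (r3 y z)
          have hPv : P x y z = (pc (r x y) (r x z) (r y z) : ℤ) := by rw [hP]
          rw [h2, h3, hPv, hs]
          rw [hs] at h4
          rw [sub_zero, one_mul, one_mul]
          refine le_trans h4 ?_
          by_cases hx : r x y = aa (r x z) (sd (q x) (q z))
          · rw [if_pos hx, if_pos ⟨hdis.1.symm, hx⟩]; norm_num
          · rw [if_neg hx]; exact hnn
      · rw [h2]; simp only [sub_self, mul_zero, zero_mul]; exact hnn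
  -- lower bound of `a1`
  have ha2 : 2 * (A : ℤ) * ∑ x, f x ≤ a1 := by
    have e : 2 * (A : ℤ) * ∑ x, f x = ∑ x, ∑ y, F x y * (2 * A) := by
      rw [hf]; beta_reduce
      rw [mul_sum]
      refine sum_congr rfl fun x _ => ?_
      rw [mul_sum]
      exact sum_congr rfl fun y _ => mul_comm _ _
    rw [e, ha1]
    unfold S3
    refine sum_le_sum fun x _ => sum_le_sum fun y _ => ?_
    rcases F01 x y with h0 | h0
    · simp [h0]
    · simp only [h0, one_mul, mul_one]
      have hne := Fne x y h0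
      obtain ⟨k', l', z1, z2, z3, z4, z5⟩ := other' ⟨q x, hq x⟩ ⟨q y, hq y⟩ (by simpa using hne)
      have z2' : (k' : ℕ) ≠ q x := fun h => z2 (Fin.ext h)
      have z3' : (k' : ℕ) ≠ q y := fun h => z3 (Fin.ext h)
      have z4' : (l' : ℕ) ≠ q x := fun h => z4 (Fin.ext h)
      have z5' : (l' : ℕ) ≠ q y := fun h => z5 (Fin.ext h)
      have z1' : (k' : ℕ) ≠ l' := fun h => z1 (Fin.ext h)
      have h5 := h2 k' k'.2 l' l'.2 z1'
      have h6 : (pt q k').card + (pt q l').card ≤
          (univ.filter (fun z => q x ≠ q z ∧ q y ≠ q z)).card := by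
        rw [← card_union_of_disjoint]
        · refine card_le_card fun z hz => ?_
          rw [mem_union] at hz
          unfold pt at hz
          simp only [mem_filter, mem_univ, true_and] at hz ⊢
          omega
        · rw [disjoint_left]
          intro z hz hz'
          unfold pt at hz hz'
          simp only [mem_filter, mem_univ, true_and] at hz hz'
          omega
      have h7 : ∑ z, D x y z = ((univ.filter (fun z => q x ≠ q z ∧ q y ≠ q z)).card : ℤ) := by
        rw [card_filter, Nat.cast_sum]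
        refine sum_congr rfl fun z _ => ?_
        rw [hD]; beta_reduce
        by_cases hz : q x ≠ q z ∧ q y ≠ q z
        · rw [if_pos ⟨hne, hz.1, hz.2⟩, if_pos hz]; rfl
        · rw [if_neg (fun H => hz ⟨H.2.1, H.2.2⟩), if_neg hz]; rfl
      rw [h7]
      exact_mod_cast le_trans h5 h6
  -- cherries
  have hch : e3 + b3 ≤ ∑ z, f z * f z := by
    have e : ∑ z, f z * f z = S3 (fun x y z => F x z * F y z) := by
      rw [rot (fun x y z => F x z * F y z), hf]
      unfold S3
      beta_reduce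
      refine sum_congr rfl fun x _ => ?_
      rw [sum_mul_sum, sum_comm]
      refine sum_congr rfl fun y _ => sum_congr rfl fun z _ => ?_
      rw [Fs x z, Fs x y]; ring
    rw [e, he3, hb3, ← S3_add]
    refine S3_le fun x y z => ?_
    have hED : E x y z + D x y z ≤ 1 := by
      rw [hE, hD]; beta_reduce
      split_ifs with a b b <;> omega
    have h8 : 0 ≤ F x z * F y z := mul_nonneg (F0 _ _) (F0 _ _)
    nlinarith
  have he0 : 0 ≤ e3 := by
    rw [he3]; unfold S3
    refine sum_nonneg fun x _ => sum_nonneg fun y _ => sum_nonneg fun z _ => ?_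
    have : 0 ≤ E x y z := by rcases E01 x y z with h | h <;> omega
    exact mul_nonneg (mul_nonneg this (F0 _ _)) (F0 _ _)
  have hA' : ∑ x, f x * (A - f x) = A * ∑ x, f x - ∑ x, f x * f x := by
    rw [mul_sum, ← sum_sub_distrib]
    exact sum_congr rfl fun x _ => by ring
  have hTS : S3 P ≤ N + S3 (fun x y z => if q x = q y ∧ q x = q z then P x y z else 0) := by
    rw [hdec]
    rw [hA'] at hg2
    nlinarith
  have hfinN : N = ∑ k ∈ range 4, ∑ l ∈ range 4, ∑ m ∈ range 4,
      (if k ≠ l ∧ l ≠ m ∧ k ≠ m then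
        ((pt q k).card : ℤ) * (pt q l).card * (pt q m).card else 0) := by
    rw [hN, hD]
    rw [sum_q3 hq (fun k l m => if k ≠ l ∧ k ≠ m ∧ l ≠ m then (1 : ℤ) else 0)]
    refine sum_congr rfl fun k _ => sum_congr rfl fun l _ => sum_congr rfl fun m _ => ?_
    by_cases h : k ≠ l ∧ l ≠ m ∧ k ≠ m
    · rw [if_pos h, if_pos ⟨h.1, h.2.2, h.2.1⟩, mul_one]
    · rw [if_neg h, if_neg (fun H => h ⟨H.1, H.2.2, H.2.1⟩), mul_zero]
  have hfinT : S3 (fun x y z => if q x = q y ∧ q x = q z then P x y z else 0) =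
      ∑ k ∈ range 4, (TS r (pt q k) : ℤ) := by
    rw [← sum_T hq, hP]
  have hfinP : S3 P = (TS r univ : ℤ) := by
    rw [hP]; unfold S3 TS; push_cast; rfl
  rw [hfinP, hfinN, hfinT] at hTS
  have hgoal : (TS r univ : ℤ) ≤ ((∑ k ∈ range 4, TS r (pt q k)
      + ∑ k ∈ range 4, ∑ l ∈ range 4, ∑ m ∈ range 4,
        (if k ≠ l ∧ l ≠ m ∧ k ≠ m then (pt q k).card * (pt q l).card * (pt q m).card else 0)
        : ℕ) : ℤ) := by
    push_cast
    linarith
  exact_mod_cast hgoal

end main

end Pool.Agent.W577.P3
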